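import Pool.Agent.Zk48.AP.Q1

/-!
MP_d57abb_nt: almost primes `k ^ 2 + 3 k + 1` in very short intervals. For almost all `N ≤ X`, with a power saving in the number
of the exceptions, ALL the intervals `(N, N + H]` with `h ≤ H ≤ X` contain at least `c H / log H` integers `k` for which
`k ^ 2 + 3 k + 1` has at most `r` prime factors: here `h` is any power of `X` for `r = 5`, `h = X ^ 0.071` for `r = 4` and
`h = X ^ 0.445` for `r = 3`. Moreover all dense subsets of the set of these `k` in such an interval contain arithmetic progressions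
of every length whose common difference is bounded by a power of `log X`.

The proof: the weighted sieve in almost all short intervals of the starting library (`Pool.Agent.Y882.SI.engI`; the variance is
computed with exponential sums) with Richert's weights; a maximal inequality passes from the intervals of length `h` to all longer
intervals at once; and Szemerédi's theorem relative to the values without small prime factors (`Pool.Agent.Zk41.PY`, helper41).

helper48; uses files of helper41 and of the starting library.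
-/

set_option autoImplicit false

namespace Pool.Agent.Results.MP_d57abb_nt.AlmostAllShortIntervals

open Finset

/-- Richert's constant `Λ_r = 1 + log ((3 ^ r + 1) / 4) / log 3 = r + 1 - log (4 / (1 + 3 ^ (-r))) / log 3`:
`Λ_3 = 2.771...`, `Λ_4 = 3.749...`, `Λ_5 = 4.741...`. -/
noncomputable def Lambda (r : ℕ) : ℝ := 1 + Real.log ((3 ^ r + 1) / 4) / Real.log 3

open Classical in
/-- The integers `k` with `N < k ≤ N + H` for which `k ^ 2 + 3 k + 1` has at most `r` prime factors, counted with multiplicity,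
all of them at least `z`. -/
noncomputable def almostPrimes (r : ℕ) (z : ℝ) (N H : ℕ) : Finset ℕ :=
  (Ioc N (N + H)).filter (fun k => (k ^ 2 + 3 * k + 1).primeFactorsList.length ≤ r ∧
    ∀ q : ℕ, q.Prime → q ∣ k ^ 2 + 3 * k + 1 → z ≤ q)

/-- The set `S` contains an arithmetic progression `a, a + d, ..., a + (l - 1) d` with common difference `1 ≤ d ≤ D`. -/
def HasNarrowProgression (l : ℕ) (D : ℝ) (S : Finset ℕ) : Prop :=
  ∃ a d : ℕ, 1 ≤ d ∧ (d : ℝ) ≤ D ∧ ∀ i < l, a + i * d ∈ S

/-- The finite set `M` has at least `m` elements, and every subset of `M` which contains a proportion at least `κ` of the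
elements of `M` contains an arithmetic progression of length `l` with common difference at most `D`. -/
def IsRich (m : ℝ) (l : ℕ) (κ D : ℝ) (M : Finset ℕ) : Prop :=
  m ≤ M.card ∧ ∀ S ⊆ M, κ * M.card ≤ S.card → HasNarrowProgression l D S

open Classical in
/-- The number of the `N` with `1 ≤ N ≤ X` for which there is an `H` with `h ≤ H ≤ X` such that the set of the `k` in
`(N, N + H]` with `k ^ 2 + 3 k + 1` almost prime is not rich (with at least `c H / log H` elements). -/
noncomputable def exceptions (r : ℕ) (z c : ℝ) (l : ℕ) (κ D : ℝ) (X h : ℕ) : ℕ :=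
  ((Icc 1 X).filter (fun N => ∃ H : ℕ, h ≤ H ∧ H ≤ X ∧
    ¬ IsRich (c * (H / Real.log H)) l κ D (almostPrimes r z N H))).card

/-- Let `r ≥ 1`, `0 < t ≤ 4 / 5`, `2 < t Λ_r` and `ε > 0`. There is `c > 0`, and for all `l` and all `κ > 0` there are `B` and
`X₀`, such that for all `X ≥ X₀` and `X ^ ε ≤ h ≤ X` the following holds for all but at most
`X ^ (max(1, 2 t) + ε) / h + X ^ (1 - t / 4 + ε)` of the integers `1 ≤ N ≤ X`: for EVERY `H` with `h ≤ H ≤ X`, at least
`c H / log H` of the `k` in `(N, N + H]` are such that `k ^ 2 + 3 k + 1` has at most `r` prime factors, all of them at least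
`X ^ (t / 4)`, and every set which contains a proportion at least `κ` of these `k` contains an arithmetic progression of length
`l` with common difference at most `(log X) ^ B`.

By the last lines, `(r, t) = (5, 1 / 2)`, `(4, 0.535)`, `(3, 0.722)` are allowed: so for large `X` there is a power saving in the
number of exceptions, if `h ≥ X ^ η` for `r = 5`, where `η > 0` is arbitrary, `h ≥ X ^ 0.071` for `r = 4`, and
`h ≥ X ^ 0.445` for `r = 3`. -/
theorem result :
    (∀ (r : ℕ) (t ε : ℝ), 1 ≤ r → 0 < t → t ≤ 4 / 5 → 2 < t * Lambda r → 0 < ε →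
      ∃ c : ℝ, 0 < c ∧ ∀ (l : ℕ) (κ : ℝ), 0 < κ → ∃ B X₀ : ℕ, ∀ X h : ℕ, X₀ ≤ X → (X : ℝ) ^ ε ≤ h → h ≤ X →
        (exceptions r ((X : ℝ) ^ (t / 4)) c l κ (Real.log X ^ B) X h : ℝ) ≤
          (X : ℝ) ^ (max 1 (2 * t) + ε) / h + (X : ℝ) ^ (1 - t / 4 + ε)) ∧
    2 < 1 / 2 * Lambda 5 ∧ 2 < (0.535 : ℝ) * Lambda 4 ∧ 2 < (0.722 : ℝ) * Lambda 3 := by
  have h3 : 0 < Real.log 3 := Real.log_pos (by norm_num)
  classical
  refine ⟨?_, ?_, ?_, ?_⟩
  · intro r t ε hr ht0 ht h hε
    obtain ⟨c, hc, X₁, hmain⟩ := Pool.Agent.Zk48.AP.all_Q r hr t ε ht0 ht h hε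
    refine ⟨c, hc, fun l κ hκ => ?_⟩
    obtain ⟨B, X₂, hB⟩ := Pool.Agent.Zk48.AP.dense_Q l ε (κ * c) (t / 4) hε (by positivity) (by positivity)
    refine ⟨B, X₁ + X₂, fun X h hX hXε hhX => ?_⟩
    have h1 := hmain X h (by omega) hXε hhX
    refine le_trans ?_ h1
    have hsub : (Icc 1 X).filter (fun N => ∃ H : ℕ, h ≤ H ∧ H ≤ X ∧
          ¬ IsRich (c * (H / Real.log H)) l κ (Real.log X ^ B) (almostPrimes r ((X : ℝ) ^ (t / 4)) N H)) ⊆
        (Icc 1 X).filter (fun N => ∃ H : ℕ, h ≤ H ∧ H ≤ X ∧
        ((((Ioc N (N + H)).filter (Pool.Agent.Zk48.AP.QP r ((X : ℝ) ^ (t / 4)))).card : ℕ) : ℝ) <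
          c * (H / Real.log H)) := by
      intro N hN
      rw [mem_filter] at hN ⊢
      obtain ⟨hN1, H, hH1, hH2, hH3⟩ := hN
      refine ⟨hN1, H, hH1, hH2, ?_⟩
      by_contra hcon
      push Not at hcon
      apply hH3
      have e : (Ioc N (N + H)).filter (Pool.Agent.Zk48.AP.QP r ((X : ℝ) ^ (t / 4))) =
          almostPrimes r ((X : ℝ) ^ (t / 4)) N H := by
        unfold almostPrimes
        ext k
        simp only [mem_filter]
        rfl
      have hcon' : c * (H / Real.log H) ≤ ((almostPrimes r ((X : ℝ) ^ (t / 4)) N H).card : ℝ) := by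
        rw [← e]
        exact hcon
      refine ⟨hcon', fun S hS hSc => ?_⟩
      have hXH : (X : ℝ) ^ ε ≤ H := hXε.trans (by exact_mod_cast hH1)
      refine hB X N H (by omega) hXH hH2 (mem_Icc.1 hN1).2 S (fun k hk => ?_) (fun k hk q hq hd => ?_) ?_
      · exact (mem_filter.1 (hS hk)).1
      · exact (mem_filter.1 (hS hk)).2.2 q hq hd
      · calc κ * c * (H / Real.log H) = κ * (c * (H / Real.log H)) := by ring
          _ ≤ κ * (almostPrimes r ((X : ℝ) ^ (t / 4)) N H).card := mul_le_mul_of_nonneg_left hcon' hκ.le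
          _ ≤ S.card := hSc
    exact_mod_cast card_le_card hsub
  · have h1 : 7 * Real.log 3 ≤ 2 * Real.log 61 := by
      have h2 : Real.log ((3 : ℝ) ^ 7) ≤ Real.log ((61 : ℝ) ^ 2) := Real.log_le_log (by norm_num) (by norm_num)
      rw [Real.log_pow, Real.log_pow] at h2
      push_cast at h2
      exact h2
    have h2 : (7 / 2 : ℝ) ≤ Real.log ((3 ^ 5 + 1) / 4) / Real.log 3 := by
      rw [le_div_iff₀ h3, show ((3 : ℝ) ^ 5 + 1) / 4 = 61 by norm_num]
      linarith
    unfold Lambda
    linarith
  · have h1 : 63 * Real.log 3 ≤ 23 * Real.log (41 / 2) := by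
      have h2 : Real.log ((3 : ℝ) ^ 63) ≤ Real.log ((41 / 2 : ℝ) ^ 23) := Real.log_le_log (by norm_num) (by norm_num)
      rw [Real.log_pow, Real.log_pow] at h2
      push_cast at h2
      exact h2
    have h2 : (63 / 23 : ℝ) ≤ Real.log ((3 ^ 4 + 1) / 4) / Real.log 3 := by
      rw [le_div_iff₀ h3, show ((3 : ℝ) ^ 4 + 1) / 4 = 41 / 2 by norm_num]
      linarith
    unfold Lambda
    linarith
  · have h1 : 1 + (131 : ℝ) / 74 ≤ Lambda 3 := Pool.Agent.K3h19.RV.lam_three
    linarith

end Pool.Agent.Results.MP_d57abb_nt.AlmostAllShortIntervals
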