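import Pool.Agent.R498.MT.QSys

set_option autoImplicit false

/-!
# Clusters of almost primes `k² + 3 k + 1`, with `k, k + 1, k + 2, k + 3` almost prime, in narrow progressions

The problem starts from the identity `k (k + 1) (k + 2) (k + 3) + 1 = (k² + 3 k + 1)²`.  We consider the `k`
for which both sides of the identity are as prime as possible: `k² + 3 k + 1` has at most three prime
factors, and `k (k + 1) (k + 2) (k + 3)` is `120 = 5!` times an almost prime (`5` divides the product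
`k (k + 1) (k + 2) (k + 3) (k² + 3 k + 1)` for every `k`).  A theorem of Maynard-Tao type, and of
Green-Tao type with narrow progressions, is proved for these `k`.
-/

namespace Pool.Agent.Results.MP_d57abb_nt.Clusters

open Filter

/-- `k ^ 2 + 3 k + 1` has at most three prime factors, counted with multiplicity, all at least `w`. -/
def AlmostPrimeValue (w : ℝ) (k : ℕ) : Prop :=
  (k ^ 2 + 3 * k + 1).primeFactorsList.length ≤ 3 ∧
    ∀ p : ℕ, p.Prime → p ∣ k ^ 2 + 3 * k + 1 → w ≤ p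

/-- `k (k + 1) (k + 2) (k + 3) = 120 M` where `M` has at most `r` prime factors, counted with
multiplicity, all at least `w`. -/
def AlmostPrimeProduct (r : ℕ) (w : ℝ) (k : ℕ) : Prop :=
  ∃ M : ℕ, k * (k + 1) * (k + 2) * (k + 3) = 120 * M ∧ M.primeFactorsList.length ≤ r ∧
    ∀ p : ℕ, p.Prime → p ∣ M → w ≤ p

open Polynomial in
/-- the product `(24 x + 5) (60 x + 13) (40 x + 9) (30 x + 7)` -/
noncomputable def f : ℤ[X] := (24 * X + 5) * (60 * X + 13) * (40 * X + 9) * (30 * X + 7)

lemma f_eval (x : ℤ) : f.eval x = (24 * x + 5) * (60 * x + 13) * (40 * x + 9) * (30 * x + 7) := by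
  simp [f]

lemma f_ne : f ≠ 0 := by
  intro h
  have := f_eval 0
  rw [h] at this
  norm_num at this

lemma adm (p : ℕ) (hp : p.Prime) :
    ∃ n : ℤ, ¬ (p : ℤ) ∣ (14400 * n ^ 2 + 6360 * n + 701) * f.eval n := by
  by_cases h7 : p = 7
  · subst h7
    refine ⟨4, ?_⟩
    rw [f_eval]
    norm_num
  by_cases h1 : (p : ℤ) ∣ 21461 * (29 * 73 * 49 * 37)
  · refine ⟨0, fun h => ?_⟩
    rw [f_eval] at h
    norm_num at h
    have hg : (p : ℤ) ∣ 1 * 7 := by
      have e1 : (p : ℤ) ∣ 82369914781 := by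
        have : (21461 : ℤ) * (29 * 73 * 49 * 37) = 82369914781 := by norm_num
        rwa [this] at h1
      have h2 : Int.gcd 82369914781 2870595 ∣ 7 := by decide +kernel
      have h3 : (p : ℤ) ∣ (Int.gcd 82369914781 2870595 : ℤ) := Int.dvd_coe_gcd e1 h
      exact h3.trans (by exact_mod_cast (by simpa using h2))
    have h4 : p ∣ 7 := by
      have : (p : ℤ) ∣ 7 := by simpa using hg
      exact_mod_cast this
    rcases (Nat.dvd_prime (by norm_num : Nat.Prime 7)).1 h4 with h5 | h5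
    · exact hp.one_lt.ne' h5
    · exact h7 h5
  · refine ⟨1, fun h => h1 ?_⟩
    rw [f_eval] at h
    norm_num at h ⊢
    exact h

/-- **Theorem.** For every `m` there is `K` such that every set `S` of at least `K` nonnegative
integers has the following property, with some `r` and `δ > 0`.  For every `l` there is an exponent
`B` such that for all large `N` there are a subset `H` of `S` with `m` elements and a progression
`n, n + d, ..., n + (l - 1) d` in `(N, N + N ^ (3 / 4)]` with difference `1 ≤ d ≤ (log N) ^ B` such that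
for all terms `x` of the progression and all `h ∈ H` the integer `k = 120 (x + h) + 25` satisfies:
`k ^ 2 + 3 k + 1` has at most three prime factors, all of them at least `N ^ (73 / 400)`, and
`k (k + 1) (k + 2) (k + 3)` is `120` times a number with at most `r` prime factors, all of them at least
`N ^ δ`. -/
theorem result (m : ℕ) : ∃ K : ℕ, ∀ S : Finset ℕ, K ≤ S.card → ∃ (r : ℕ) (δ : ℝ), 0 < δ ∧
    ∀ l : ℕ, ∃ B : ℕ, ∀ᶠ N : ℕ in atTop,
    ∃ H ⊆ S, H.card = m ∧ ∃ n d : ℕ, 1 ≤ d ∧ (d : ℝ) ≤ Real.log N ^ B ∧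
      ∀ j < l, N < n + j * d ∧ ((n + j * d : ℕ) : ℝ) ≤ N + (N : ℝ) ^ (3 / 4 : ℝ) ∧
        ∀ h ∈ H, AlmostPrimeValue ((N : ℝ) ^ (73 / 400 : ℝ)) (120 * (n + j * d + h) + 25) ∧
          AlmostPrimeProduct r ((N : ℝ) ^ δ) (120 * (n + j * d + h) + 25) := by
  obtain ⟨K, hK⟩ := Pool.Agent.R498.MT.quad_sys 14400 6360 701 (by norm_num)
    (by
      rintro ⟨r, hr⟩
      norm_num at hr
      have h1 : r ≤ 268 := by nlinarith
      have h2 : -268 ≤ r := by nlinarith
      have h3 : r * r < 268 * 268 + 1 := by nlinarith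
      have h4 : 72000 = r * r := by linarith
      have h5 : r ^ 2 = 72000 := by rw [sq]; linarith
      have h6 : IsSquare (72000 : ℤ) := ⟨r, h4⟩
      revert h6
      rw [show (72000 : ℤ) = ((72000 : ℕ) : ℤ) by norm_num, Int.isSquare_natCast_iff]
      decide +kernel)
    f f_ne adm m
  refine ⟨K, fun S hS => ?_⟩
  obtain ⟨r, δ, hδ, hmain⟩ := hK S hS
  refine ⟨r, δ, hδ, fun l => ?_⟩
  obtain ⟨B, hB⟩ := hmain l
  refine ⟨B, ?_⟩
  filter_upwards [hB] with N hN
  obtain ⟨H, hH, hHc, n, d, h1, h2, h3⟩ := hN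
  refine ⟨H, hH, hHc, n, d, h1, h2, fun j hj => ?_⟩
  obtain ⟨h4, h5, h6⟩ := h3 j hj
  refine ⟨h4, h5, fun h hh => ?_⟩
  obtain ⟨g1, g2, g3, g4⟩ := h6 h hh
  set x := n + j * d + h with hx
  have e1 : 14400 * ((x : ℕ) : ℤ) ^ 2 + 6360 * ((x : ℕ) : ℤ) + 701 =
      (((120 * x + 25) ^ 2 + 3 * (120 * x + 25) + 1 : ℕ) : ℤ) := by
    push_cast
    ring
  rw [e1] at g1 g2
  rw [Int.natAbs_natCast] at g1
  have e2 : f.eval ((x : ℕ) : ℤ) =
      (((24 * x + 5) * (60 * x + 13) * (40 * x + 9) * (30 * x + 7) : ℕ) : ℤ) := by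
    rw [f_eval]
    push_cast
    ring
  rw [e2] at g3 g4
  rw [Int.natAbs_natCast] at g3
  refine ⟨⟨g1, fun q hq hqd => g2 q hq (by exact_mod_cast hqd)⟩,
    (24 * x + 5) * (60 * x + 13) * (40 * x + 9) * (30 * x + 7), by ring, g3,
    fun q hq hqd => g4 q hq (by exact_mod_cast hqd)⟩

end Pool.Agent.Results.MP_d57abb_nt.Clusters
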