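import Pool.Agent.Zk41.P5.H
import Pool.Agent.Zk41.LS.G

/-!
# Primes `k` for which `k² + 3 k + 1` has at most five prime factors

The weighted linear sieve at prime arguments `k = a n + b` in progressions, with any further polynomial in `n` without
small prime factors, uniformly in `a`, `b` and this polynomial; and Szemerédi's theorem with short differences in every
dense subset of the points found. In particular both sides of the identity `k (k + 1) (k + 2) (k + 3) + 1 = (k² + 3 k + 1)²`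
are as prime as possible at long progressions of primes `k`: `k² + 3 k + 1` has at most five prime factors and
`(k + 1) (k + 2) (k + 3)` is `120` times a number without small prime factors.
-/

set_option autoImplicit false

open Finset Polynomial

namespace Pool.Agent.Results.MP_d57abb_nt.PrimeArguments

/-- `1 + log ((3 ^ r + 1) / 4) / log 3`: `3.74…`, `4.74…`, `5.73…` for `r = 4, 5, 6`. -/
noncomputable def lam (r : ℕ) : ℝ := 1 + Real.log ((3 ^ r + 1) / 4) / Real.log 3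

/-- `k (k² + 3 k + 1) P(n)` for `k = a n + b` -/
def val (a : ℕ) (b : ℤ) (P : ℤ[X]) (n : ℤ) : ℤ :=
  (a * n + b) * ((a * n + b) ^ 2 + 3 * (a * n + b) + 1) * P.eval n

/-- The number of the residue classes `n` modulo `p` in which `p` divides `val n`. -/
def classes (a : ℕ) (b : ℤ) (P : ℤ[X]) (p : ℕ) : ℕ :=
  ((range p).filter fun n : ℕ => (p : ℤ) ∣ val a b P n).card

/-- The sieve product `∏_{p ≤ H} (1 - classes p / p)`. -/
noncomputable def sieve (a : ℕ) (b : ℤ) (P : ℤ[X]) (H : ℕ) : ℝ :=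
  ∏ p ∈ (Icc 1 H).filter Nat.Prime, (1 - (classes a b P p : ℝ) / p)

/-- The hypotheses: `1 ≤ a ≤ (log H) ^ A`, `|b| ≤ (log H) ^ A`, `P` is a polynomial of degree at most `g` with
coefficients at most `H ^ C` without zero in `(H, 2 H]`, and no prime divides all `val n`. -/
def System (A C g : ℕ) (a : ℕ) (b : ℤ) (P : ℤ[X]) (H : ℕ) : Prop :=
  1 ≤ a ∧ (a : ℝ) ≤ Real.log H ^ A ∧ |(b : ℝ)| ≤ Real.log H ^ A ∧ P.natDegree ≤ g ∧
    (∀ i, |P.coeff i| ≤ (H : ℤ) ^ C) ∧ (∀ n ∈ Ioc H (H + H), P.eval (n : ℤ) ≠ 0) ∧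
    ∀ p : ℕ, p.Prime → ∃ n : ℤ, ¬ (p : ℤ) ∣ val a b P n

open Classical in
/-- The integers `H < n ≤ 2 * H` for which `k = a n + b` is a prime, `k² + 3 k + 1` has at most `r` prime factors,
counted with multiplicity, all of them at least `H ^ ζ`, and all prime factors of `P(n)` exceed `H ^ δ`. -/
noncomputable def points (r : ℕ) (ζ δ : ℝ) (a : ℕ) (b : ℤ) (P : ℤ[X]) (H : ℕ) : Finset ℕ :=
  (Ioc H (H + H)).filter fun n : ℕ => (a * (n : ℤ) + b).natAbs.Prime ∧
    ((a * (n : ℤ) + b) ^ 2 + 3 * (a * (n : ℤ) + b) + 1).natAbs.primeFactorsList.length ≤ r ∧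
    (∀ p : ℕ, p.Prime → (p : ℤ) ∣ (a * (n : ℤ) + b) ^ 2 + 3 * (a * (n : ℤ) + b) + 1 → (H : ℝ) ^ ζ ≤ p) ∧
    ∀ p : ℕ, p.Prime → (p : ℤ) ∣ P.eval (n : ℤ) → (H : ℝ) ^ δ < p

/-- `S` contains an arithmetic progression of length `m` with difference `1 ≤ d ≤ D`. -/
def HasProgression (S : Finset ℕ) (m : ℕ) (D : ℝ) : Prop :=
  ∃ n d : ℕ, 1 ≤ d ∧ (d : ℝ) ≤ D ∧ ∀ j < m, n + j * d ∈ S

open Pool.Agent.Zk41.P5 (Fc Fc_eval L1 fnL ptsF SmF apF)
open Pool.Agent.Zk41.PY (fn AdmP)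
open Pool.Agent.Y677.RSZ (rt V)

/-- the polynomial `X² + 3 X + 1` -/
noncomputable def PQ : ℤ[X] := X ^ 2 + 3 * X + 1

lemma PQ_eval (t : ℤ) : PQ.eval t = t ^ 2 + 3 * t + 1 := by
  unfold PQ
  simp

lemma PQ_deg : PQ.natDegree = 2 := by
  unfold PQ
  compute_degree!

lemma PQ_monic : PQ.Monic := by
  unfold PQ
  monicity!

lemma PQ_irr : Irreducible PQ := by
  rw [Monic.irreducible_iff_roots_eq_zero_of_degree_le_three PQ_monic (by rw [PQ_deg]) (by rw [PQ_deg]; norm_num)]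
  rw [Multiset.eq_zero_iff_forall_notMem]
  intro x hx
  rw [mem_roots PQ_monic.ne_zero, IsRoot.def, PQ_eval] at hx
  have h1 : x < 0 := by nlinarith
  have h2 : -3 < x := by nlinarith
  interval_cases x <;> omega

lemma fn_val (a : ℕ) (b : ℤ) (P : ℤ[X]) : fn (L1 a b * (Fc PQ a b * P)) = val a b P := by
  funext x
  rw [fnL]
  unfold fn val
  rw [eval_mul, Fc_eval, PQ_eval]
  ring

lemma sieve_eq (a : ℕ) (b : ℤ) (P : ℤ[X]) (H : ℕ) :
    sieve a b P H = V (fn (L1 a b * (Fc PQ a b * P))) 1 H := by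
  rw [fn_val]
  unfold sieve V
  have h1 : (Icc 1 H).filter Nat.Prime = Pool.Agent.TH423.SH.PS 1 H := by
    unfold Pool.Agent.TH423.SH.PS
    apply filter_congr
    intro p _
    constructor
    · intro h
      exact ⟨h, fun h2 => h.one_lt.ne' (Nat.dvd_one.1 h2)⟩
    · exact fun h => h.1
  rw [h1]
  rfl

lemma sys {A C g a : ℕ} {b : ℤ} {P : ℤ[X]} {H : ℕ} (h : System A C g a b P H) : SmF PQ A C g a b P H := by
  obtain ⟨h1, h2, h3, h4, h5, h6, h7⟩ := h
  refine ⟨h1, h2, h3, h4, h5, h6, fun p hp => ?_⟩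
  obtain ⟨n, hn⟩ := h7 p hp
  refine ⟨n, ?_⟩
  have := congrFun (fn_val a b P) n
  unfold fn at this
  rw [this]
  exact hn

open Classical in
lemma pts_eq (r : ℕ) (ζ δ : ℝ) (a : ℕ) (b : ℤ) (P : ℤ[X]) (H : ℕ) :
    ptsF PQ r ζ δ a b P H = points r ζ δ a b P H := by
  ext n
  unfold ptsF points
  rw [mem_filter, mem_filter, PQ_eval]

theorem main (r A C g : ℕ) (hr : 4 < lam r) :
    ∃ δ c : ℝ, 0 < δ ∧ 0 < c ∧
      (∃ H₀ : ℕ, ∀ H : ℕ, H₀ ≤ H → ∀ (a : ℕ) (b : ℤ) (P : ℤ[X]), System A C g a b P H →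
        c * (H * sieve a b P H) ≤ (points r (1 / (2 * lam r)) δ a b P H).card) ∧
      ∀ (m : ℕ) (ε : ℝ), 0 < ε → ∃ B H₀ : ℕ, ∀ H : ℕ, H₀ ≤ H → ∀ (a : ℕ) (b : ℤ) (P : ℤ[X]), System A C g a b P H →
        ∀ S ⊆ points r (1 / (2 * lam r)) δ a b P H,
          ε * (points r (1 / (2 * lam r)) δ a b P H).card ≤ S.card → HasProgression S m (Real.log H ^ B) := by
  have hr1 : 1 ≤ r := by
    by_contra h
    have : r = 0 := by omega
    subst this
    unfold lam at hr
    norm_num at hr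
    have h3 : 0 < Real.log 3 := Real.log_pos (by norm_num)
    have h4 : Real.log (1 / 2) / Real.log 3 < 0 := div_neg_of_neg_of_pos (Real.log_neg (by norm_num) (by norm_num)) h3
    norm_num at h4
    linarith
  obtain ⟨δ, c, h1, h2, ⟨H₀, h3⟩, h4⟩ := apF PQ PQ_monic PQ_irr (by rw [PQ_deg]) r A C g hr1
    (by rw [PQ_deg]; push_cast; unfold lam at hr; unfold Pool.Agent.K3h19.RV.Lam; linarith)
  have e : ((PQ.natDegree : ℕ) : ℝ) / (4 * Pool.Agent.K3h19.RV.Lam r) = 1 / (2 * lam r) := by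
    rw [PQ_deg]
    have : Pool.Agent.K3h19.RV.Lam r = lam r := rfl
    rw [this]
    push_cast
    have : lam r ≠ 0 := by linarith
    field_simp
    norm_num
  rw [e] at h3 h4
  refine ⟨δ, c, h1, h2, ⟨H₀, fun H hH a b P hS => ?_⟩, fun m ε hε => ?_⟩
  · rw [sieve_eq, ← pts_eq]
    exact h3 H hH a b P (sys hS)
  · obtain ⟨B, H₁, h5⟩ := h4 m ε hε
    exact ⟨B, H₁, fun H hH a b P hS S hSs hSc => h5 H hH a b P (sys hS) S (by rw [pts_eq]; exact hSs)
      (by rw [pts_eq]; exact hSc)⟩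

/-- `(k + 1) (k + 2) (k + 3) / 120` for `k = 3600 n + 577` -/
noncomputable def P3 : ℤ[X] := (C 1800 * X + C 289) * ((C 1200 * X + C 193) * (C 180 * X + C 29))

lemma P3_eval (n : ℤ) : P3.eval n = (1800 * n + 289) * ((1200 * n + 193) * (180 * n + 29)) := by
  unfold P3
  simp

lemma P3_id (n : ℤ) : (3600 * n + 577 + 1) * (3600 * n + 577 + 2) * (3600 * n + 577 + 3) = 120 * P3.eval n := by
  rw [P3_eval]
  ring

lemma P3_deg : P3.natDegree ≤ 3 := by
  unfold P3
  refine natDegree_mul_le.trans ?_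
  have h1 : (C (1800 : ℤ) * X + C 289).natDegree ≤ 1 := natDegree_linear_le
  have h2 : (C (1200 : ℤ) * X + C 193).natDegree ≤ 1 := natDegree_linear_le
  have h3 : (C (180 : ℤ) * X + C 29).natDegree ≤ 1 := natDegree_linear_le
  have h4 := natDegree_mul_le (p := C (1200 : ℤ) * X + C 193) (q := C (180 : ℤ) * X + C 29)
  omega

/-- no prime divides all values -/
lemma P3_adm (p : ℕ) (hp : p.Prime) : ∃ n : ℤ, ¬ (p : ℤ) ∣ val 3600 577 P3 n := by
  by_contra hcon
  push Not at hcon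
  have hpp := Nat.prime_iff_prime_int.1 hp
  have hp0 : (0 : ℤ) < p := by exact_mod_cast hp.pos
  have h0 := hcon 0
  have h : ∀ n : ℤ, (p : ℤ) ∣ (3600 * n + 577) * ((3600 * n + 577) ^ 2 + 3 * (3600 * n + 577) + 1) *
      ((1800 * n + 289) * ((1200 * n + 193) * (180 * n + 29))) := by
    intro n
    have := hcon n
    unfold val at this
    rw [P3_eval] at this
    exact_mod_cast this
  -- the small primes
  by_cases h2 : p = 2
  · subst h2; have := h 0; norm_num at this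
  by_cases h3 : p = 3
  · subst h3; have := h 0; norm_num at this
  by_cases h5 : p = 5
  · subst h5; have := h 0; norm_num at this
  have hp7 : 7 ≤ p := by
    by_contra hlt
    have h4 := hp.two_le
    interval_cases p <;> simp_all (config := { decide := true })
  -- the classes of the roots
  have hlin : ∀ u v : ℤ, ¬ (p : ℤ) ∣ u → ((range p).filter (fun r : ℕ => (p : ℤ) ∣ u * r + v)).card ≤ 1 := by
    intro u v hu
    rw [card_le_one]
    intro r hr s hs
    rw [mem_filter, mem_range] at hr hs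
    have h1 : (p : ℤ) ∣ u * ((r : ℤ) - s) := by
      have : u * ((r : ℤ) - s) = (u * r + v) - (u * s + v) := by ring
      rw [this]
      exact hr.2.sub hs.2
    have h3 := (hpp.dvd_or_dvd h1).resolve_left hu
    have h4 : (r : ℤ) - s = 0 := by
      apply Int.eq_zero_of_abs_lt_dvd h3
      rw [abs_lt]
      constructor <;> omega
    omega
  have hnd : ∀ u : ℕ, (∀ q : ℕ, q.Prime → q ∣ u → q ≤ 5) → ¬ (p : ℤ) ∣ (u : ℤ) := by
    intro u hu hd
    have := hu p hp (Int.natCast_dvd_natCast.1 hd)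
    omega
  have hfac : ∀ u e₁ e₂ e₃ : ℕ, u = 2 ^ e₁ * 3 ^ e₂ * 5 ^ e₃ → ∀ q : ℕ, q.Prime → q ∣ u → q ≤ 5 := by
    intro u e₁ e₂ e₃ hu q hq hqu
    rw [hu] at hqu
    rcases (hq.dvd_mul).1 hqu with h4 | h4
    · rcases (hq.dvd_mul).1 h4 with h6 | h6
      · have := (Nat.prime_dvd_prime_iff_eq hq Nat.prime_two).1 (hq.dvd_of_dvd_pow h6); omega
      · have := (Nat.prime_dvd_prime_iff_eq hq Nat.prime_three).1 (hq.dvd_of_dvd_pow h6); omega
    · have := (Nat.prime_dvd_prime_iff_eq hq Nat.prime_five).1 (hq.dvd_of_dvd_pow h4); omega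
  have hnd1 : ¬ (p : ℤ) ∣ (3600 : ℤ) := by exact_mod_cast hnd 3600 (hfac 3600 4 2 2 (by norm_num))
  have hnd2 : ¬ (p : ℤ) ∣ (1800 : ℤ) := by exact_mod_cast hnd 1800 (hfac 1800 3 2 2 (by norm_num))
  have hnd3 : ¬ (p : ℤ) ∣ (1200 : ℤ) := by exact_mod_cast hnd 1200 (hfac 1200 4 1 2 (by norm_num))
  have hnd4 : ¬ (p : ℤ) ∣ (180 : ℤ) := by exact_mod_cast hnd 180 (hfac 180 2 2 1 (by norm_num))
  have hquad : ((range p).filter (fun r : ℕ => (p : ℤ) ∣ (3600 * (r : ℤ) + 577) ^ 2 + 3 * (3600 * (r : ℤ) + 577) + 1)).card ≤ 2 := by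
    have h1 := Pool.Agent.Zk41.P5.rt_Fc PQ 3600 577 hp (by
      intro hd
      exact hnd1 (by exact_mod_cast Int.natCast_dvd_natCast.2 hd))
    have h4 := Pool.Agent.Zk41.P4.rt_le_deg PQ PQ_monic p hp
    rw [← h1, PQ_deg] at h4
    unfold rt at h4
    simp only [Fc_eval, PQ_eval] at h4
    exact_mod_cast h4
  have hsub : range p ⊆ ((range p).filter (fun r : ℕ => (p : ℤ) ∣ 3600 * r + 577)) ∪
      (((range p).filter (fun r : ℕ => (p : ℤ) ∣ (3600 * (r : ℤ) + 577) ^ 2 + 3 * (3600 * (r : ℤ) + 577) + 1)) ∪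
      (((range p).filter (fun r : ℕ => (p : ℤ) ∣ 1800 * r + 289)) ∪
      (((range p).filter (fun r : ℕ => (p : ℤ) ∣ 1200 * r + 193)) ∪
      ((range p).filter (fun r : ℕ => (p : ℤ) ∣ 180 * r + 29))))) := by
    intro r hr
    simp only [mem_union, mem_filter]
    have h1 := h r
    rcases hpp.dvd_or_dvd h1 with h4 | h4
    · rcases hpp.dvd_or_dvd h4 with h6 | h6
      · exact Or.inl ⟨hr, h6⟩
      · exact Or.inr (Or.inl ⟨hr, h6⟩)
    · rcases hpp.dvd_or_dvd h4 with h6 | h6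
      · exact Or.inr (Or.inr (Or.inl ⟨hr, h6⟩))
      · rcases hpp.dvd_or_dvd h6 with h7 | h7
        · exact Or.inr (Or.inr (Or.inr (Or.inl ⟨hr, h7⟩)))
        · exact Or.inr (Or.inr (Or.inr (Or.inr ⟨hr, h7⟩)))
  have hc := card_le_card hsub
  rw [card_range] at hc
  have u1 := card_union_le ((range p).filter (fun r : ℕ => (p : ℤ) ∣ 3600 * r + 577))
      (((range p).filter (fun r : ℕ => (p : ℤ) ∣ (3600 * (r : ℤ) + 577) ^ 2 + 3 * (3600 * (r : ℤ) + 577) + 1)) ∪
      (((range p).filter (fun r : ℕ => (p : ℤ) ∣ 1800 * r + 289)) ∪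
      (((range p).filter (fun r : ℕ => (p : ℤ) ∣ 1200 * r + 193)) ∪
      ((range p).filter (fun r : ℕ => (p : ℤ) ∣ 180 * r + 29)))))
  have u2 := card_union_le ((range p).filter (fun r : ℕ => (p : ℤ) ∣ (3600 * (r : ℤ) + 577) ^ 2 + 3 * (3600 * (r : ℤ) + 577) + 1))
      (((range p).filter (fun r : ℕ => (p : ℤ) ∣ 1800 * r + 289)) ∪
      (((range p).filter (fun r : ℕ => (p : ℤ) ∣ 1200 * r + 193)) ∪
      ((range p).filter (fun r : ℕ => (p : ℤ) ∣ 180 * r + 29))))
  have u3 := card_union_le ((range p).filter (fun r : ℕ => (p : ℤ) ∣ 1800 * r + 289))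
      (((range p).filter (fun r : ℕ => (p : ℤ) ∣ 1200 * r + 193)) ∪
      ((range p).filter (fun r : ℕ => (p : ℤ) ∣ 180 * r + 29)))
  have u4 := card_union_le ((range p).filter (fun r : ℕ => (p : ℤ) ∣ 1200 * r + 193))
      ((range p).filter (fun r : ℕ => (p : ℤ) ∣ 180 * r + 29))
  have l1 := hlin 3600 577 hnd1
  have l2 := hlin 1800 289 hnd2
  have l3 := hlin 1200 193 hnd3
  have l4 := hlin 180 29 hnd4
  omega

/-- `5` prime factors are enough: `4 < lam 5` -/
lemma lam_five : 4 < lam 5 := by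
  unfold lam
  have h3 : 0 < Real.log 3 := Real.log_pos (by norm_num)
  have h1 : 3 * Real.log 3 < Real.log ((3 ^ 5 + 1) / 4) := by
    rw [show 3 * Real.log 3 = Real.log (3 ^ 3) by rw [Real.log_pow]; norm_num]
    exact Real.log_lt_log (by norm_num) (by norm_num)
  have h2 : 3 < Real.log ((3 ^ 5 + 1) / 4) / Real.log 3 := by
    rw [lt_div_iff₀ h3]
    exact h1
  linarith

open Classical in
/-- Part 1: the uniform theorem. Part 2: the identity. -/
theorem result :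
    (∀ (r A C g : ℕ), 4 < lam r → ∃ δ c : ℝ, 0 < δ ∧ 0 < c ∧
      (∃ H₀ : ℕ, ∀ H : ℕ, H₀ ≤ H → ∀ (a : ℕ) (b : ℤ) (P : ℤ[X]), System A C g a b P H →
        c * (H * sieve a b P H) ≤ (points r (1 / (2 * lam r)) δ a b P H).card) ∧
      ∀ (m : ℕ) (ε : ℝ), 0 < ε → ∃ B H₀ : ℕ, ∀ H : ℕ, H₀ ≤ H → ∀ (a : ℕ) (b : ℤ) (P : ℤ[X]), System A C g a b P H →
        ∀ S ⊆ points r (1 / (2 * lam r)) δ a b P H,
          ε * (points r (1 / (2 * lam r)) δ a b P H).card ≤ S.card → HasProgression S m (Real.log H ^ B)) ∧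
    ∃ t : ℕ, ∀ m : ℕ, ∃ B H₀ : ℕ, ∀ H : ℕ, H₀ ≤ H → ∃ k d : ℕ, H < k ∧ 1 ≤ d ∧ (d : ℝ) ≤ Real.log H ^ B ∧
      ∀ j < m, (k + j * d).Prime ∧ ((k + j * d) ^ 2 + 3 * (k + j * d) + 1).primeFactorsList.length ≤ 5 ∧
        ∃ s : ℕ, (k + j * d + 1) * (k + j * d + 2) * (k + j * d + 3) = 120 * s ∧ s.primeFactorsList.length ≤ t := by
  refine ⟨main, ?_⟩
  obtain ⟨δ, c, hδ, hc, -, h2⟩ := main 5 1 1 3 lam_five
  obtain ⟨M, hM⟩ : ∃ M : ℕ, M = ∑ i ∈ range 4, (P3.coeff i).natAbs := ⟨_, rfl⟩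
  have hlog : Filter.Tendsto (fun H : ℕ => Real.log H) Filter.atTop Filter.atTop :=
    Real.tendsto_log_atTop.comp tendsto_natCast_atTop_atTop
  obtain ⟨Y1, hY1⟩ := Filter.eventually_atTop.1 (hlog.eventually_ge_atTop 3600)
  have hsys : ∀ H : ℕ, Y1 + M + 2 ≤ H → System 1 1 3 3600 577 P3 H := by
    intro H hH
    have w := hY1 H (by omega)
    refine ⟨by norm_num, by push_cast; rw [pow_one]; exact w, ?_, P3_deg, ?_, ?_, P3_adm⟩
    · push_cast
      rw [pow_one, abs_of_nonneg (by norm_num)]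
      linarith
    · intro i
      rw [pow_one]
      have h1 : (P3.coeff i).natAbs ≤ M := by
        by_cases hi : i < 4
        · rw [hM]
          exact single_le_sum (f := fun i => (P3.coeff i).natAbs) (fun _ _ => Nat.zero_le _) (mem_range.2 hi)
        · rw [coeff_eq_zero_of_natDegree_lt (lt_of_le_of_lt P3_deg (by omega))]
          simp
      rw [Int.abs_eq_natAbs]
      exact_mod_cast (by omega : (P3.coeff i).natAbs ≤ H)
    · intro n _
      rw [P3_eval]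
      positivity
  refine ⟨⌊((4 : ℕ) : ℝ) / δ⌋₊, fun m => ?_⟩
  obtain ⟨B, H₀, h3⟩ := h2 (m + 1) 1 one_pos
  refine ⟨B + 1, H₀ + Y1 + M + 10 ^ 12, fun H hH => ?_⟩
  obtain ⟨n, d, hd1, hd2, hn⟩ := h3 H (by omega) 3600 577 P3 (hsys H (by omega)) _ (Finset.Subset.refl _) (by rw [one_mul])
  have w := hY1 H (by omega)
  have hHpos : 0 < H := by omega
  refine ⟨3600 * n + 577, 3600 * d, ?_, by omega, ?_, fun j hj => ?_⟩
  · have h4 := hn 0 (by omega)
    unfold points at h4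
    rw [mem_filter, mem_Ioc] at h4
    omega
  · push_cast
    rw [pow_succ, mul_comm]
    exact mul_le_mul hd2 w (by norm_num) (by positivity)
  · have h4 := hn j (by omega)
    unfold points at h4
    rw [mem_filter, mem_Ioc] at h4
    obtain ⟨⟨h5, h6⟩, h7, h8, -, h9⟩ := h4
    obtain ⟨x, hx⟩ : ∃ x : ℕ, x = n + j * d := ⟨_, rfl⟩
    rw [← hx] at h5 h6 h7 h8 h9
    have ek : 3600 * n + 577 + j * (3600 * d) = 3600 * x + 577 := by rw [hx]; ring
    rw [ek]
    refine ⟨?_, ?_, (1800 * x + 289) * ((1200 * x + 193) * (180 * x + 29)), by ring, ?_⟩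
    · have e1 : ((3600 : ℕ) : ℤ) * (x : ℤ) + 577 = ((3600 * x + 577 : ℕ) : ℤ) := by push_cast; ring
      rw [e1, Int.natAbs_natCast] at h7
      exact h7
    · have e1 : (((3600 : ℕ) : ℤ) * (x : ℤ) + 577) ^ 2 + 3 * (((3600 : ℕ) : ℤ) * (x : ℤ) + 577) + 1 =
          (((3600 * x + 577) ^ 2 + 3 * (3600 * x + 577) + 1 : ℕ) : ℤ) := by push_cast; ring
      rw [e1, Int.natAbs_natCast] at h8
      exact h8
    · apply Nat.le_floor
      refine Pool.Agent.Zk41.LS.omega_le (H := H) (by positivity) (by omega) hδ 4 ?_ ?_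
      · have h10 : x ≤ 2 * H := by omega
        have g1 : 1800 * x + 289 ≤ 4000 * H := by omega
        have g2 : 1200 * x + 193 ≤ 4000 * H := by omega
        have g3 : 180 * x + 29 ≤ 4000 * H := by omega
        calc (1800 * x + 289) * ((1200 * x + 193) * (180 * x + 29)) ≤ (4000 * H) * ((4000 * H) * (4000 * H)) :=
              Nat.mul_le_mul g1 (Nat.mul_le_mul g2 g3)
          _ = 64000000000 * H ^ 3 := by ring
          _ ≤ H * H ^ 3 := Nat.mul_le_mul_right _ (by omega)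
          _ = H ^ 4 := by ring
      · intro p hp hpd
        apply h9 p hp
        rw [P3_eval]
        have e1 : (1800 * (x : ℤ) + 289) * ((1200 * (x : ℤ) + 193) * (180 * (x : ℤ) + 29)) =
            (((1800 * x + 289) * ((1200 * x + 193) * (180 * x + 29)) : ℕ) : ℤ) := by push_cast; ring
        rw [e1]
        exact Int.natCast_dvd_natCast.2 hpd

end Pool.Agent.Results.MP_d57abb_nt.PrimeArguments
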