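import Pool.Agent.Zk41.P4.Fin
import Pool.Agent.Zk41.P4.Cub

/-!
# Szemerédi's theorem for the integers `x` for which `x² + 3 x + 1` has at most three prime factors

Let `R` be the set of the integers `x` in an interval of length `H ≥ N ^ 0.722` inside `[-N, N]` for which `x² + 3 x + 1` has at most
three prime factors, all at least `N ^ δ`. Here: `R` has at least `c H / log H` elements, the order of the conjectured number of prime
values, and EVERY subset of `R` with a positive proportion of its elements contains progressions of any prescribed length, with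
differences at most a power of `log N`. The same holds for every set of at least `κ H / log H` integers `x` of the interval for which
`x² + 3 x + 1` has no prime factor below a power of `N`, for instance for sets of `x` for which `x² + 3 x + 1` is prime; so if the prime
values have a positive relative density (as Q1 asks, in a precise form), then they have this structure in all these intervals. The
theorem holds with `r` prime factors and intervals of length `N ^ θ` for all `θ > 2 / Λ_r`, where `Λ_r` is Richert's constant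
(`Λ_3 = 2.770…`, `Λ_4 = 3.745…`).

Proof. As in `Results/MP_4d57ea_nt/RichertProgressions`: the weighted linear sieve with Richert's weights in short intervals
(`Agent/Zk41/P4/Low`) and Szemerédi's theorem relative to the integers at which a polynomial has no small prime factors
(`Zk41.PY.pol`).
-/

set_option autoImplicit false

open Finset Polynomial

namespace Pool.Agent.Results.MP_d57abb_nt.RichertProgressions

/-- Richert's constant `Λ_r = r + 1 - log (4 / (1 + 3 ^ (-r))) / log 3`. -/
noncomputable def Lambda (r : ℕ) : ℝ := r + 1 - Real.log (4 / (1 + 3 ^ (-(r : ℝ)))) / Real.log 3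

/-- `S` contains a progression `a, a + d, …, a + (l - 1) d` with difference `1 ≤ d ≤ D`. -/
def HasAP (l : ℕ) (D : ℝ) (S : Finset ℤ) : Prop :=
  ∃ (a : ℤ) (d : ℕ), 1 ≤ d ∧ (d : ℝ) ≤ D ∧ ∀ i < l, a + i * d ∈ S

/-- no prime below `z` divides `x² + 3 x + 1` -/
def Rough (z : ℝ) (x : ℤ) : Prop := ∀ p : ℕ, p.Prime → (p : ℤ) ∣ x ^ 2 + 3 * x + 1 → z ≤ p

open Classical in
/-- `R`: the integers `x` in `(Y, Y + H]` for which `x² + 3 x + 1` has at most `r` prime factors (counted with multiplicity), all of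
them at least `z` -/
noncomputable def R (r : ℕ) (z : ℝ) (Y : ℤ) (H : ℕ) : Finset ℤ :=
  (Ioc Y (Y + H)).filter (fun x : ℤ => (x ^ 2 + 3 * x + 1).natAbs.primeFactorsList.length ≤ r ∧ Rough z x)

/-- three prime factors: the exponent `0.722` -/
theorem three : 2 < (0.722 : ℝ) * Lambda 3 := by
  have h1 := Pool.Agent.K3h19.RV.lam_three
  unfold Lambda
  rw [Pool.Agent.Zk41.P4.lam_eq]
  norm_num at h1 ⊢
  linarith

open Pool.Agent.Zk41.P4 (rich_int lam_eq)
open Pool.Agent.Y677.RSZ (rt)

/-- the polynomial `X² + 3 X + 1` -/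
noncomputable def PQ : ℤ[X] := X ^ 2 + 3 * X + 1

lemma PQ_eval (t : ℤ) : PQ.eval t = t ^ 2 + 3 * t + 1 := by
  unfold PQ
  simp

lemma PQ_deg : PQ.natDegree = 2 := by
  unfold PQ
  compute_degree!

lemma PQ_monic : PQ.Monic := by
  unfold PQ
  monicity!

lemma PQ_irr : Irreducible PQ := by
  rw [Monic.irreducible_iff_roots_eq_zero_of_degree_le_three PQ_monic (by rw [PQ_deg]) (by rw [PQ_deg]; norm_num)]
  rw [Multiset.eq_zero_iff_forall_notMem]
  intro x hx
  rw [mem_roots PQ_monic.ne_zero, IsRoot.def, PQ_eval] at hx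
  have h1 : x < 0 := by nlinarith
  have h2 : -3 < x := by nlinarith
  interval_cases x <;> omega

lemma PQ_rt (p : ℕ) (hp : p.Prime) : rt (fun n => PQ.eval n) p < p := by
  classical
  unfold rt
  by_contra hcon
  push Not at hcon
  have h1 : (range p).filter (fun r : ℕ => (p : ℤ) ∣ (fun n => PQ.eval n) (r : ℤ)) = range p := by
    apply eq_of_subset_of_card_le (filter_subset _ _)
    rw [card_range]
    exact hcon
  have h3 : (0 : ℕ) ∈ range p := mem_range.2 hp.pos
  rw [← h1, mem_filter] at h3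
  have h4 := h3.2
  simp only [PQ_eval] at h4
  norm_num at h4
  exact hp.one_lt.ne' (Nat.dvd_one.1 (by exact_mod_cast h4))


/-- **Theorem.** Let `θ ≤ 1` and `2 < θ Λ_r` (for instance `r = 3` and `0.722 ≤ θ ≤ 1`). There are `δ, c > 0` such that for all `l`
and `κ, ρ > 0` there are `B` and `N₀` with the following property. Let `N ≥ N₀`, and let `(Y, Y + H]` be an interval of integers
contained in `[-N, N]` with `H ≥ N ^ θ`. The set `R` of the integers `x` of the interval for which `x² + 3 x + 1` has at most `r` prime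
factors, all at least `N ^ δ`, has at least `c H / log H` elements, every subset of `R` with at least `κ |R|` elements contains a
progression of length `l` with difference at most `(log N) ^ B`, and so does every set of at least `κ H / log H` integers `x` of the
interval for which `x² + 3 x + 1` has no prime factor below `N ^ ρ`. -/
theorem result (r : ℕ) (θ : ℝ) (hθ : θ ≤ 1) (hr : 2 < θ * Lambda r) :
    ∃ δ c : ℝ, 0 < δ ∧ 0 < c ∧ ∀ (l : ℕ) (κ ρ : ℝ), 0 < κ → 0 < ρ → ∃ B N₀ : ℕ, ∀ N : ℕ, N₀ ≤ N →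
      ∀ (Y : ℤ) (H : ℕ), -(N : ℤ) ≤ Y → Y + H ≤ N → (N : ℝ) ^ θ ≤ H →
        c * (H / Real.log H) ≤ (R r ((N : ℝ) ^ δ) Y H).card ∧
        (∀ S ⊆ R r ((N : ℝ) ^ δ) Y H, κ * (R r ((N : ℝ) ^ δ) Y H).card ≤ S.card → HasAP l (Real.log N ^ B) S) ∧
        ∀ S ⊆ Ioc Y (Y + H), (∀ x ∈ S, Rough ((N : ℝ) ^ ρ) x) → κ * (H / Real.log H) ≤ S.card →
          HasAP l (Real.log N ^ B) S := by
  classical
  unfold Lambda at hr
  rw [lam_eq] at hr
  obtain ⟨δ, c, hδ, hc, h⟩ := rich_int PQ PQ_monic PQ_irr (by rw [PQ_deg]) PQ_rt r θ hθ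
    (by rw [PQ_deg]; exact_mod_cast hr)
  refine ⟨δ, c, hδ, hc, fun l κ ρ hκ hρ => ?_⟩
  obtain ⟨B₁, N₁, h1⟩ := h l (κ * c) δ (by positivity) hδ
  obtain ⟨B₂, N₂, h2⟩ := h l κ ρ hκ hρ
  have hlog : ∀ᶠ N : ℕ in Filter.atTop, 1 ≤ Real.log (N : ℝ) :=
    (Real.tendsto_log_atTop.comp tendsto_natCast_atTop_atTop).eventually_ge_atTop 1
  obtain ⟨N₃, h3⟩ := Filter.eventually_atTop.1 hlog
  refine ⟨B₁ + B₂, N₁ + N₂ + N₃, fun N hN Y H hY1 hY2 hH => ?_⟩
  obtain ⟨g1, g2⟩ := h1 N (by omega) Y H hY1 hY2 hH
  obtain ⟨-, g4⟩ := h2 N (by omega) Y H hY1 hY2 hH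
  have hl1 := h3 N (by omega)
  have e : (Ioc Y (Y + H)).filter (fun x : ℤ => (PQ.eval x).natAbs.primeFactorsList.length ≤ r ∧
      ∀ p : ℕ, p.Prime → (p : ℤ) ∣ PQ.eval x → (N : ℝ) ^ δ ≤ p) = R r ((N : ℝ) ^ δ) Y H := by
    unfold R Rough
    simp only [PQ_eval]
  rw [e] at g1
  refine ⟨g1, fun S hS hSc => ?_, fun S hS hSr hSc => ?_⟩
  · obtain ⟨a, d, hd1, hd2, hAP⟩ := g2 S (fun x hx => by
        have := hS hx
        unfold R at this
        exact (mem_filter.1 this).1)
      (fun x hx p hp hpd => by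
        have h4 := hS hx
        unfold R at h4
        rw [PQ_eval] at hpd
        exact (mem_filter.1 h4).2.2 p hp hpd)
      (by
        calc κ * c * (H / Real.log H) = κ * (c * (H / Real.log H)) := by ring
          _ ≤ κ * (R r ((N : ℝ) ^ δ) Y H).card := mul_le_mul_of_nonneg_left g1 hκ.le
          _ ≤ S.card := hSc)
    exact ⟨a, d, hd1, hd2.trans (pow_le_pow_right₀ hl1 (by omega)), hAP⟩
  · obtain ⟨a, d, hd1, hd2, hAP⟩ := g4 S hS (fun x hx p hp hpd => by
        rw [PQ_eval] at hpd
        exact hSr x hx p hp hpd) hSc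
    exact ⟨a, d, hd1, hd2.trans (pow_le_pow_right₀ hl1 (by omega)), hAP⟩

end Pool.Agent.Results.MP_d57abb_nt.RichertProgressions
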